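import Pool.Agent.Y862.SQ.Stm
import Pool.Agent.Helper919.NonRes

/-!
# SQ-ELS (job 7687, helper779 for helper862): an elementary large sieve for the symbols of `-h`
-/

set_option autoImplicit false

namespace Pool.Agent.Y779.SQ

open Finset
open Pool.Agent.Y862.SQ

/-- the symbol of `m`, cut to the odd numbers -/
def ff (m n : ℕ) : ℤ := if Odd n then jacobiSym (m : ℤ) n else 0

theorem ff_abs (m n : ℕ) : |ff m n| ≤ 1 := by
  unfold ff
  split_ifs
  · rcases jacobiSym.trichotomy (m : ℤ) n with h | h | h <;> rw [h] <;> simp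
  · simp

theorem ff_mod {m n n' : ℕ} (h : n ≡ n' [MOD 4 * m]) : ff m n = ff m n' := by
  have hpar : Odd n ↔ Odd n' := by
    have h2 : n ≡ n' [MOD 2] := h.of_dvd ⟨2 * m, by ring⟩
    rw [Nat.odd_iff, Nat.odd_iff]
    unfold Nat.ModEq at h2
    omega
  unfold ff
  by_cases ho : Odd n
  · rw [if_pos ho, if_pos (hpar.1 ho), jacobiSym.mod_right _ ho, jacobiSym.mod_right _ (hpar.1 ho),
      Int.natAbs_natCast]
    unfold Nat.ModEq at h
    rw [h]
  · rw [if_neg ho, if_neg (fun h => ho (hpar.2 h))]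

theorem ff_mul {m d : ℕ} (hd : Odd d) (n : ℕ) : ff m (d * n) = ff m d * ff m n := by
  unfold ff
  rw [if_pos hd]
  by_cases hn : Odd n
  · rw [if_pos hn, if_pos (hd.mul hn)]
    exact jacobiSym.mul_right' _ (by rintro rfl; simp at hd) (by rintro rfl; simp at hn)
  · rw [if_neg hn, if_neg (fun h => hn (Nat.odd_mul.1 h).2), mul_zero]

theorem ff_period {m : ℕ} (hm : ¬ IsSquare m) : ∑ n ∈ range (4 * m), ff m n = 0 := by
  have hm0 : m ≠ 0 := by rintro rfl; exact hm ⟨0, rfl⟩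
  have hmz : ¬ IsSquare (m : ℤ) := by
    rintro ⟨r, hr⟩
    apply hm
    refine ⟨r.natAbs, ?_⟩
    have := congrArg Int.natAbs hr
    rwa [Int.natAbs_natCast, Int.natAbs_mul] at this
  obtain ⟨d, hd, hj⟩ := Pool.Agent.Helper919.exists_jacobi_neg_one (m : ℤ) hmz
  have hN : 4 * m ≠ 0 := by omega
  have hcop : Nat.Coprime d (4 * m) := by
    apply Nat.Coprime.mul_right
    · have h2 : Nat.Coprime d 2 := (Nat.coprime_two_right).2 hd
      have := h2.pow_right 2
      simpa using this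
    · by_contra hc
      have h0 : jacobiSym (m : ℤ) d = 0 := by
        rw [jacobiSym.eq_zero_iff]
        refine ⟨by rintro rfl; simp at hd, ?_⟩
        rw [Int.gcd_natCast_natCast, Nat.gcd_comm]
        exact hc
      rw [h0] at hj
      norm_num at hj
  have hfd : ff m d = -1 := by
    unfold ff
    rw [if_pos hd, hj]
  generalize hNN : 4 * m = N at *
  have hNe : NeZero N := ⟨hN⟩
  have e1 : ∑ x ∈ range N, ff m x = ∑ x : ZMod N, ff m x.val := by
    rw [← Fin.sum_univ_eq_sum_range (fun x => ff m x)]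
    apply (Fintype.sum_equiv (ZMod.finEquiv N).toEquiv _ _ _)
    intro x
    congr 1
    cases N with
    | zero => exact absurd rfl hN
    | succ N => rfl
  have hu : IsUnit (d : ZMod N) := (ZMod.isUnit_iff_coprime d N).2 hcop
  obtain ⟨u, hu⟩ := hu
  have e2 : ∑ x : ZMod N, ff m x.val = ∑ x : ZMod N, ff m ((u : ZMod N) * x).val :=
    (Fintype.sum_equiv (Units.mulLeft u) _ _ (fun x => by simp)).symm
  have e3 : ∀ x : ZMod N, ff m ((u : ZMod N) * x).val = - ff m x.val := by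
    intro x
    have h4 : ff m ((u : ZMod N) * x).val = ff m (d * x.val) := by
      apply ff_mod
      rw [hNN]
      have h5 : ((((u : ZMod N) * x).val : ℕ) : ZMod N) = ((d * x.val : ℕ) : ZMod N) := by
        push_cast
        rw [ZMod.natCast_zmod_val, ZMod.natCast_zmod_val, hu]
      exact (ZMod.natCast_eq_natCast_iff _ _ _).1 h5
    rw [h4, ff_mul hd, hfd]
    ring
  simp_rw [e3, sum_neg_distrib] at e2
  rw [e1]
  linarith

theorem ff_partial {m : ℕ} (hm : ¬ IsSquare m) (x : ℕ) :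
    |∑ n ∈ range x, ff m n| ≤ 4 * m := by
  have hm0 : m ≠ 0 := by rintro rfl; exact hm ⟨0, rfl⟩
  induction x using Nat.strong_induction_on with
  | _ x ih =>
    rcases lt_or_ge x (4 * m) with hx | hx
    · calc |∑ n ∈ range x, ff m n| ≤ ∑ n ∈ range x, |ff m n| := abs_sum_le_sum_abs _ _
        _ ≤ ∑ n ∈ range x, 1 := sum_le_sum fun n _ => ff_abs m n
        _ ≤ 4 * m := by simp; exact_mod_cast hx.le
    · obtain ⟨y, rfl⟩ : ∃ y, x = 4 * m + y := ⟨x - 4 * m, by omega⟩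
      rw [sum_range_add, ff_period hm, zero_add]
      have : ∀ i : ℕ, ff m (4 * m + i) = ff m i := by
        intro i
        apply ff_mod
        unfold Nat.ModEq
        simp
      simp_rw [this]
      exact ih y (by omega)

/-- the classes of the squares -/
theorem sq_class {h h' : ℕ} (hh : h ≠ 0) (hh' : h' ≠ 0) (hs : IsSquare (h * h')) :
    ∀ a b : ℕ, b ^ 2 * a = h → Squarefree a → ∃ r, 1 ≤ r ∧ h' = a * r ^ 2 := by
  intro a b hab ha
  obtain ⟨s, hs⟩ := hs
  have hb0 : b ≠ 0 := by rintro rfl; simp at hab; exact hh hab.symm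
  have ha0 : a ≠ 0 := ha.ne_zero
  have h1 : b ^ 2 * (a * h') = s ^ 2 := by rw [← mul_assoc, hab, hs]; ring
  have h2 : b ∣ s := (Nat.pow_dvd_pow_iff two_ne_zero).1 ⟨_, h1.symm⟩
  obtain ⟨t, rfl⟩ := h2
  have h3 : a * h' = t ^ 2 := by
    have : b ^ 2 * (a * h') = b ^ 2 * t ^ 2 := by rw [h1]; ring
    exact Nat.eq_of_mul_eq_mul_left (by positivity) this
  have h4 : a ∣ t := (ha.dvd_pow_iff_dvd two_ne_zero).1 ⟨_, h3.symm⟩
  obtain ⟨r, rfl⟩ := h4
  have h5 : h' = a * r ^ 2 := by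
    have : a * h' = a * (a * r ^ 2) := by rw [h3]; ring
    exact Nat.eq_of_mul_eq_mul_left (by omega) this
  refine ⟨r, ?_, h5⟩
  rcases Nat.eq_zero_or_pos r with h0 | h0
  · subst h0; simp at h5; exact absurd h5 hh'
  · exact h0

theorem card_sq (T h : ℕ) (hh : h ≠ 0) :
    (((Icc 1 T).filter (fun h' => IsSquare (h * h'))).card : ℝ) ≤ √(T : ℝ) := by
  classical
  obtain ⟨a, b, hab, ha⟩ := Nat.sq_mul_squarefree h
  have h1 : (Icc 1 T).filter (fun h' => IsSquare (h * h')) ⊆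
      (Icc 1 (Nat.sqrt T)).image (fun r => a * r ^ 2) := by
    intro h' hh'
    rw [mem_filter, mem_Icc] at hh'
    obtain ⟨r, hr1, hr2⟩ := sq_class hh (by omega) hh'.2 a b hab ha
    rw [mem_image]
    refine ⟨r, ?_, hr2.symm⟩
    rw [mem_Icc]
    refine ⟨hr1, ?_⟩
    rw [Nat.le_sqrt']
    have ha1 : 1 ≤ a := Nat.one_le_iff_ne_zero.2 ha.ne_zero
    calc r ^ 2 = 1 * r ^ 2 := by ring
      _ ≤ a * r ^ 2 := Nat.mul_le_mul_right _ ha1
      _ = h' := hr2.symm
      _ ≤ T := hh'.1.2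
  have h2 : ((Icc 1 T).filter (fun h' => IsSquare (h * h'))).card ≤ Nat.sqrt T := by
    refine (card_le_card h1).trans (card_image_le.trans ?_)
    rw [Nat.card_Icc]
    omega
  exact (Nat.cast_le.2 h2).trans Real.nat_sqrt_le_real_sqrt

/-- the symbol of `-h` on the odd numbers -/
noncomputable def ch (h n : ℕ) : ℝ := if Odd n then (jacobiSym (-(h : ℤ)) n : ℝ) else 0

theorem ch_abs (h n : ℕ) : |ch h n| ≤ 1 := by
  unfold ch
  split_ifs
  · rcases jacobiSym.trichotomy (-(h : ℤ)) n with h | h | h <;> rw [h] <;> simp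
  · simp

theorem ch_mul (h h' n : ℕ) : ch h n * ch h' n = (ff (h * h') n : ℝ) := by
  unfold ch ff
  by_cases hn : Odd n
  · rw [if_pos hn, if_pos hn, if_pos hn, ← Int.cast_mul, ← jacobiSym.mul_left]
    congr 2
    push_cast
    ring
  · rw [if_neg hn, if_neg hn, if_neg hn, zero_mul, Int.cast_zero]

theorem corr_sq (N h h' : ℕ) : |∑ n ∈ Icc 1 N, ch h n * ch h' n| ≤ N := by
  calc |∑ n ∈ Icc 1 N, ch h n * ch h' n| ≤ ∑ n ∈ Icc 1 N, |ch h n * ch h' n| :=
        abs_sum_le_sum_abs _ _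
    _ ≤ ∑ n ∈ Icc 1 N, (1 : ℝ) := by
        apply sum_le_sum
        intro n _
        rw [abs_mul]
        exact mul_le_one₀ (ch_abs h n) (abs_nonneg _) (ch_abs h' n)
    _ = N := by simp

theorem corr_ns (N h h' : ℕ) (hs : ¬ IsSquare (h * h')) :
    |∑ n ∈ Icc 1 N, ch h n * ch h' n| ≤ 4 * ((h : ℝ) * h') := by
  have h1 : ∑ n ∈ Icc 1 N, ch h n * ch h' n = ((∑ n ∈ range (N + 1), ff (h * h') n : ℤ) : ℝ) := by
    rw [sum_congr rfl fun n _ => ch_mul h h' n]
    rw [← Int.cast_sum]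
    congr 1
    apply sum_subset
    · intro n hn
      rw [mem_Icc] at hn
      rw [mem_range]
      omega
    · intro n hn hn'
      rw [mem_range] at hn
      rw [mem_Icc] at hn'
      have : n = 0 := by omega
      subst this
      unfold ff
      rw [if_neg (by decide)]
  rw [h1, ← Int.cast_abs]
  have := ff_partial hs (N + 1)
  exact_mod_cast this

theorem t_ELS : S_ELS := by
  intro T N a ha
  classical
  set S : ℕ → ℝ := fun h => ∑ n ∈ Icc 1 N, a n * (jacobiSym (-(h : ℤ)) n : ℝ) with hS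
  set V : ℝ := ∑ h ∈ Icc 1 T, S h ^ 2 with hV
  set A : ℝ := ∑ n ∈ Icc 1 N, a n ^ 2 with hA
  set g : ℕ → ℝ := fun n => ∑ h ∈ Icc 1 T, S h * ch h n with hg
  have hV0 : 0 ≤ V := sum_nonneg fun h _ => sq_nonneg _
  have hA0 : 0 ≤ A := sum_nonneg fun h _ => sq_nonneg _
  have hSc : ∀ h, S h = ∑ n ∈ Icc 1 N, a n * ch h n := by
    intro h
    apply sum_congr rfl
    intro n _
    unfold ch
    split_ifs with ho
    · rfl
    · rw [ha n (Nat.not_odd_iff_even.1 ho), zero_mul, zero_mul]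
  have h1 : V = ∑ n ∈ Icc 1 N, a n * g n := by
    have e : ∀ h, S h ^ 2 = ∑ n ∈ Icc 1 N, S h * (a n * ch h n) := by
      intro h
      rw [← mul_sum, ← hSc, pow_two]
    rw [hV, sum_congr rfl fun h _ => e h, sum_comm]
    apply sum_congr rfl
    intro n _
    rw [hg]
    simp only
    rw [mul_sum]
    apply sum_congr rfl
    intro h _
    ring
  have h2 : V ^ 2 ≤ A * ∑ n ∈ Icc 1 N, g n ^ 2 := by
    rw [h1]
    exact sum_mul_sq_le_sq_mul_sq _ _ _
  have h4 : ∑ n ∈ Icc 1 N, g n ^ 2 = ∑ h ∈ Icc 1 T, ∑ h' ∈ Icc 1 T, S h * S h' *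
      ∑ n ∈ Icc 1 N, ch h n * ch h' n := by
    have : ∀ n, g n ^ 2 = ∑ h ∈ Icc 1 T, ∑ h' ∈ Icc 1 T, S h * S h' * (ch h n * ch h' n) := by
      intro n
      rw [pow_two, hg]
      simp only
      rw [sum_mul_sum]
      apply sum_congr rfl; intro d _
      apply sum_congr rfl; intro d' _
      ring
    rw [sum_congr rfl fun n _ => this n]
    rw [sum_comm]
    apply sum_congr rfl; intro d _
    rw [sum_comm]
    apply sum_congr rfl; intro d' _
    rw [← mul_sum]
  have hcb : ∀ h ∈ Icc 1 T, ∑ h' ∈ Icc 1 T, (if IsSquare (h * h') then (1 : ℝ) else 0) ≤ √(T : ℝ) := by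
    intro h hh
    rw [mem_Icc] at hh
    rw [sum_boole]
    exact card_sq T h (by omega)
  have h5 : ∑ n ∈ Icc 1 N, g n ^ 2 ≤ (N * √(T : ℝ) + 4 * (T : ℝ) ^ 3) * V := by
    rw [h4]
    have h6 : ∀ h ∈ Icc 1 T, ∀ h' ∈ Icc 1 T, S h * S h' * ∑ n ∈ Icc 1 N, ch h n * ch h' n
        ≤ (N / 2 * S h ^ 2 * (if IsSquare (h * h') then (1 : ℝ) else 0) +
          N / 2 * S h' ^ 2 * (if IsSquare (h' * h) then (1 : ℝ) else 0)) +
          |S h| * |S h'| * (4 * (T : ℝ) ^ 2) := by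
      intro h hh h' hh'
      rw [mem_Icc] at hh hh'
      have hab : S h * S h' * ∑ n ∈ Icc 1 N, ch h n * ch h' n ≤
          |S h| * |S h'| * |∑ n ∈ Icc 1 N, ch h n * ch h' n| := by
        refine (le_abs_self _).trans (le_of_eq ?_)
        rw [abs_mul, abs_mul]
      have hSS : 0 ≤ |S h| * |S h'| := by positivity
      by_cases hs : IsSquare (h * h')
      · have hs' : IsSquare (h' * h) := by rwa [mul_comm]
        rw [if_pos hs, if_pos hs']
        have e1 := corr_sq N h h'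
        have e2 : |S h| * |S h'| ≤ (S h ^ 2 + S h' ^ 2) / 2 := by
          have := sq_nonneg (|S h| - |S h'|)
          rw [← sq_abs (S h), ← sq_abs (S h')]
          nlinarith
        have hN0 : (0 : ℝ) ≤ N := Nat.cast_nonneg N
        have e3 : |S h| * |S h'| * |∑ n ∈ Icc 1 N, ch h n * ch h' n| ≤
            (S h ^ 2 + S h' ^ 2) / 2 * N :=
          mul_le_mul e2 e1 (abs_nonneg _) (by positivity)
        have e4 : 0 ≤ |S h| * |S h'| * (4 * (T : ℝ) ^ 2) := by positivity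
        linarith
      · have hs' : ¬ IsSquare (h' * h) := by rwa [mul_comm]
        rw [if_neg hs, if_neg hs', mul_zero, mul_zero, add_zero, zero_add]
        refine hab.trans (mul_le_mul_of_nonneg_left ?_ hSS)
        refine (corr_ns N h h' hs).trans ?_
        have e1 : (h : ℝ) ≤ T := by exact_mod_cast hh.2
        have e2 : (h' : ℝ) ≤ T := by exact_mod_cast hh'.2
        have e3 : (h : ℝ) * h' ≤ T * T := mul_le_mul e1 e2 (Nat.cast_nonneg _) (Nat.cast_nonneg _)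
        nlinarith
    have h7 : ∑ h ∈ Icc 1 T, ∑ h' ∈ Icc 1 T, N / 2 * S h ^ 2 *
        (if IsSquare (h * h') then (1 : ℝ) else 0) ≤ N / 2 * √(T : ℝ) * V := by
      rw [hV, mul_sum]
      apply sum_le_sum
      intro h hh
      rw [← mul_sum]
      calc N / 2 * S h ^ 2 * ∑ h' ∈ Icc 1 T, (if IsSquare (h * h') then (1 : ℝ) else 0) ≤
          N / 2 * S h ^ 2 * √(T : ℝ) := mul_le_mul_of_nonneg_left (hcb h hh) (by positivity)
        _ = _ := by ring
    have h8 : ∑ h ∈ Icc 1 T, ∑ h' ∈ Icc 1 T, N / 2 * S h' ^ 2 *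
        (if IsSquare (h' * h) then (1 : ℝ) else 0) ≤ N / 2 * √(T : ℝ) * V := by
      rw [sum_comm]
      exact h7
    have h9 : (∑ h ∈ Icc 1 T, |S h|) ^ 2 ≤ T * V := by
      have h10 : (∑ h ∈ Icc 1 T, |S h|) ^ 2 ≤ ((Icc 1 T).card : ℝ) * ∑ h ∈ Icc 1 T, |S h| ^ 2 :=
        sq_sum_le_card_mul_sum_sq
      simpa [sq_abs] using h10
    calc ∑ h ∈ Icc 1 T, ∑ h' ∈ Icc 1 T, S h * S h' * ∑ n ∈ Icc 1 N, ch h n * ch h' n
        ≤ ∑ h ∈ Icc 1 T, ∑ h' ∈ Icc 1 T,
          ((N / 2 * S h ^ 2 * (if IsSquare (h * h') then (1 : ℝ) else 0) +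
          N / 2 * S h' ^ 2 * (if IsSquare (h' * h) then (1 : ℝ) else 0)) +
          |S h| * |S h'| * (4 * (T : ℝ) ^ 2)) :=
          sum_le_sum fun h hh => sum_le_sum fun h' hh' => h6 h hh h' hh'
      _ = (∑ h ∈ Icc 1 T, ∑ h' ∈ Icc 1 T, N / 2 * S h ^ 2 *
        (if IsSquare (h * h') then (1 : ℝ) else 0)) + (∑ h ∈ Icc 1 T, ∑ h' ∈ Icc 1 T,
          N / 2 * S h' ^ 2 * (if IsSquare (h' * h) then (1 : ℝ) else 0)) +
          (∑ h ∈ Icc 1 T, |S h|) ^ 2 * (4 * (T : ℝ) ^ 2) := by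
          simp_rw [sum_add_distrib]
          congr 1
          have h20 : (∑ h ∈ Icc 1 T, |S h|) ^ 2 = ∑ h ∈ Icc 1 T, ∑ h' ∈ Icc 1 T, |S h| * |S h'| := by
            rw [pow_two, sum_mul_sum]
          rw [h20, sum_mul]
          apply sum_congr rfl; intro d _
          rw [sum_mul]
      _ ≤ N / 2 * √(T : ℝ) * V + N / 2 * √(T : ℝ) * V + T * V * (4 * (T : ℝ) ^ 2) :=
          add_le_add (add_le_add h7 h8) (mul_le_mul_of_nonneg_right h9 (by positivity))
      _ = (N * √(T : ℝ) + 4 * (T : ℝ) ^ 3) * V := by ring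
  rcases hV0.lt_or_eq with h | h
  · have h12 : V * V ≤ ((N * √(T : ℝ) + 4 * (T : ℝ) ^ 3) * A) * V := by
      calc V * V = V ^ 2 := by ring
        _ ≤ A * ∑ n ∈ Icc 1 N, g n ^ 2 := h2
        _ ≤ A * ((N * √(T : ℝ) + 4 * (T : ℝ) ^ 3) * V) := mul_le_mul_of_nonneg_left h5 hA0
        _ = _ := by ring
    exact le_of_mul_le_mul_right h12 h
  · rw [← h]; positivity

end Pool.Agent.Y779.SQ
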